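import Mathlib
import Pool.Agent.Helper64.HG.Stmts

set_option autoImplicit false

namespace Pool.Agent.Helper64.HG

open Classical in
/-- assembling the model from the keys -/
theorem gl_build (hX : ST_XFER) (V : Type) [Finite V] (G : SimpleGraph V) (v : V) (τ : V → Bool)
    (A : V → Bool → ℝ) (P Q : V → ℝ)
    (h1 : ∀ a b, G.Adj v a → G.Adj v b → ¬ G.Adj a b)
    (f1 : ∀ n n' b, G.Adj v n → G.Adj v n' → n ≠ n' →
      ((A n true < A n' true ∧ A n false < A n' false) ∨ (A n' true < A n true ∧ A n' false < A n false)) ∧ A n b ≠ A n' b)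
    (f2 : ∀ n k, G.Adj v n → k ∈ Far G v →
      A n (τ k) ≠ P k ∧ A n (τ k) ≠ Q k ∧ (G.Adj n k ↔ P k < A n (τ k) ∧ A n (τ k) < Q k))
    (f3 : ∀ k ∈ Far G v, P k < Q k)
    (f4 : ∀ k ∈ Far G v, ∀ k' ∈ Far G v, τ k = τ k' → (P k = P k' → k = k') ∧ (Q k = Q k' → k = k') ∧ P k ≠ Q k' ∧
      (G.Adj k k' ↔ ((P k < P k' ∧ P k' < Q k ∧ Q k < Q k') ∨ (P k' < P k ∧ P k < Q k' ∧ Q k' < Q k))))
    (f5 : ∀ k ∈ Far G v, ∀ k' ∈ Far G v, τ k ≠ τ k' → ¬ G.Adj k k') : Circ G := by
  obtain ⟨l, hl⟩ : ∃ l : V → ℤ ×ₗ ℝ, ∀ u, l u = if u = v then toLex (0, 0) else if G.Adj v u then toLex (1, A u true)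
    else if τ u = true then toLex (1, P u) else toLex (3, -(Q u)) := ⟨_, fun u => rfl⟩
  obtain ⟨r, hr⟩ : ∃ r : V → ℤ ×ₗ ℝ, ∀ u, r u = if u = v then toLex (2, 0) else if G.Adj v u then toLex (3, -(A u false))
    else if τ u = true then toLex (1, Q u) else toLex (3, -(P u)) := ⟨_, fun u => rfl⟩
  have hlv : l v = toLex ((0 : ℤ), (0 : ℝ)) := by rw [hl]; simp
  have hrv : r v = toLex ((2 : ℤ), (0 : ℝ)) := by rw [hr]; simp
  have hne : ∀ n, G.Adj v n → n ≠ v := fun n h => h.ne'
  have hln : ∀ n, G.Adj v n → l n = toLex ((1 : ℤ), A n true) := by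
    intro n h
    rw [hl, if_neg (hne n h), if_pos h]
  have hrn : ∀ n, G.Adj v n → r n = toLex ((3 : ℤ), -(A n false)) := by
    intro n h
    rw [hr, if_neg (hne n h), if_pos h]
  have hlkt : ∀ k ∈ Far G v, τ k = true → l k = toLex ((1 : ℤ), P k) := by
    intro k h ht
    rw [hl, if_neg h.1, if_neg h.2, if_pos ht]
  have hrkt : ∀ k ∈ Far G v, τ k = true → r k = toLex ((1 : ℤ), Q k) := by
    intro k h ht
    rw [hr, if_neg h.1, if_neg h.2, if_pos ht]
  have hlkf : ∀ k ∈ Far G v, τ k = false → l k = toLex ((3 : ℤ), -(Q k)) := by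
    intro k h ht
    rw [hl, if_neg h.1, if_neg h.2, if_neg (by rw [ht]; simp)]
  have hrkf : ∀ k ∈ Far G v, τ k = false → r k = toLex ((3 : ℤ), -(P k)) := by
    intro k h ht
    rw [hr, if_neg h.1, if_neg h.2, if_neg (by rw [ht]; simp)]
  have hlt : ∀ (a b : ℤ) (x y : ℝ), ((toLex (a, x) : ℤ ×ₗ ℝ) < toLex (b, y)) ↔ (a < b ∨ a = b ∧ x < y) := by
    intro a b x y
    exact Prod.Lex.toLex_lt_toLex
  have heq : ∀ (a b : ℤ) (x y : ℝ), ((toLex (a, x) : ℤ ×ₗ ℝ) = toLex (b, y)) ↔ (a = b ∧ x = y) := by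
    intro a b x y
    rw [toLex_inj, Prod.mk.injEq]
  have tri : ∀ u : V, u = v ∨ G.Adj v u ∨ (u ∈ Far G v ∧ τ u = true) ∨ (u ∈ Far G v ∧ τ u = false) := by
    intro u
    by_cases h : u = v
    · exact Or.inl h
    · by_cases h' : G.Adj v u
      · exact Or.inr (Or.inl h')
      · have : u ∈ Far G v := ⟨h, h'⟩
        rcases Bool.eq_false_or_eq_true (τ u) with ht | ht
        · exact Or.inr (Or.inr (Or.inl ⟨this, ht⟩))
        · exact Or.inr (Or.inr (Or.inr ⟨this, ht⟩))
  apply hX V (ℤ ×ₗ ℝ) G l r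
  constructor
  · -- lt
    intro u
    rcases tri u with h | h | ⟨h, ht⟩ | ⟨h, ht⟩
    · rw [h, hlv, hrv, hlt]; norm_num
    · rw [hln u h, hrn u h, hlt]; norm_num
    · rw [hlkt u h ht, hrkt u h ht, hlt]
      exact Or.inr ⟨rfl, f3 u h⟩
    · rw [hlkf u h ht, hrkf u h ht, hlt]
      exact Or.inr ⟨rfl, neg_lt_neg (f3 u h)⟩
  · -- injl
    intro u w huw
    rcases tri u with h | h | ⟨h, ht⟩ | ⟨h, ht⟩ <;> rcases tri w with h' | h' | ⟨h', ht'⟩ | ⟨h', ht'⟩
    · rw [h, h']
    · rw [h, hlv, hln w h', heq] at huw; exact absurd huw.1 (by norm_num)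
    · rw [h, hlv, hlkt w h' ht', heq] at huw; exact absurd huw.1 (by norm_num)
    · rw [h, hlv, hlkf w h' ht', heq] at huw; exact absurd huw.1 (by norm_num)
    · rw [h', hlv, hln u h, heq] at huw; exact absurd huw.1 (by norm_num)
    · rw [hln u h, hln w h', heq] at huw
      by_contra hcon
      exact (f1 u w true h h' hcon).2 huw.2
    · rw [hln u h, hlkt w h' ht', heq] at huw
      have := (f2 u w h h').1
      rw [ht'] at this
      exact absurd huw.2 this
    · rw [hln u h, hlkf w h' ht', heq] at huw; exact absurd huw.1 (by norm_num)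
    · rw [h', hlv, hlkt u h ht, heq] at huw; exact absurd huw.1 (by norm_num)
    · rw [hlkt u h ht, hln w h', heq] at huw
      have := (f2 w u h' h).1
      rw [ht] at this
      exact absurd huw.2.symm this
    · rw [hlkt u h ht, hlkt w h' ht', heq] at huw
      exact (f4 u h w h' (by rw [ht, ht'])).1 huw.2
    · rw [hlkt u h ht, hlkf w h' ht', heq] at huw; exact absurd huw.1 (by norm_num)
    · rw [h', hlv, hlkf u h ht, heq] at huw; exact absurd huw.1 (by norm_num)
    · rw [hlkf u h ht, hln w h', heq] at huw; exact absurd huw.1 (by norm_num)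
    · rw [hlkf u h ht, hlkt w h' ht', heq] at huw; exact absurd huw.1 (by norm_num)
    · rw [hlkf u h ht, hlkf w h' ht', heq] at huw
      exact (f4 u h w h' (by rw [ht, ht'])).2.1 (neg_injective huw.2)
  · -- injr
    intro u w huw
    rcases tri u with h | h | ⟨h, ht⟩ | ⟨h, ht⟩ <;> rcases tri w with h' | h' | ⟨h', ht'⟩ | ⟨h', ht'⟩
    · rw [h, h']
    · rw [h, hrv, hrn w h', heq] at huw; exact absurd huw.1 (by norm_num)
    · rw [h, hrv, hrkt w h' ht', heq] at huw; exact absurd huw.1 (by norm_num)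
    · rw [h, hrv, hrkf w h' ht', heq] at huw; exact absurd huw.1 (by norm_num)
    · rw [h', hrv, hrn u h, heq] at huw; exact absurd huw.1 (by norm_num)
    · rw [hrn u h, hrn w h', heq] at huw
      by_contra hcon
      exact (f1 u w false h h' hcon).2 (neg_injective huw.2)
    · rw [hrn u h, hrkt w h' ht', heq] at huw; exact absurd huw.1 (by norm_num)
    · rw [hrn u h, hrkf w h' ht', heq] at huw
      have := (f2 u w h h').1
      rw [ht'] at this
      exact absurd (neg_injective huw.2) this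
    · rw [h', hrv, hrkt u h ht, heq] at huw; exact absurd huw.1 (by norm_num)
    · rw [hrkt u h ht, hrn w h', heq] at huw; exact absurd huw.1 (by norm_num)
    · rw [hrkt u h ht, hrkt w h' ht', heq] at huw
      exact (f4 u h w h' (by rw [ht, ht'])).2.1 huw.2
    · rw [hrkt u h ht, hrkf w h' ht', heq] at huw; exact absurd huw.1 (by norm_num)
    · rw [h', hrv, hrkf u h ht, heq] at huw; exact absurd huw.1 (by norm_num)
    · rw [hrkf u h ht, hrn w h', heq] at huw
      have := (f2 w u h' h).1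
      rw [ht] at this
      exact absurd (neg_injective huw.2).symm this
    · rw [hrkf u h ht, hrkt w h' ht', heq] at huw; exact absurd huw.1 (by norm_num)
    · rw [hrkf u h ht, hrkf w h' ht', heq] at huw
      exact (f4 u h w h' (by rw [ht, ht'])).1 (neg_injective huw.2)
  · -- ne
    intro u w huw
    rcases tri u with h | h | ⟨h, ht⟩ | ⟨h, ht⟩ <;> rcases tri w with h' | h' | ⟨h', ht'⟩ | ⟨h', ht'⟩
    · rw [h, h', hlv, hrv, heq] at huw; exact absurd huw.1 (by norm_num)
    · rw [h, hlv, hrn w h', heq] at huw; exact absurd huw.1 (by norm_num)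
    · rw [h, hlv, hrkt w h' ht', heq] at huw; exact absurd huw.1 (by norm_num)
    · rw [h, hlv, hrkf w h' ht', heq] at huw; exact absurd huw.1 (by norm_num)
    · rw [h', hrv, hln u h, heq] at huw; exact absurd huw.1 (by norm_num)
    · rw [hln u h, hrn w h', heq] at huw; exact absurd huw.1 (by norm_num)
    · rw [hln u h, hrkt w h' ht', heq] at huw
      have := (f2 u w h h').2.1
      rw [ht'] at this
      exact absurd huw.2 this
    · rw [hln u h, hrkf w h' ht', heq] at huw; exact absurd huw.1 (by norm_num)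
    · rw [h', hrv, hlkt u h ht, heq] at huw; exact absurd huw.1 (by norm_num)
    · rw [hlkt u h ht, hrn w h', heq] at huw; exact absurd huw.1 (by norm_num)
    · rw [hlkt u h ht, hrkt w h' ht', heq] at huw
      exact (f4 u h w h' (by rw [ht, ht'])).2.2.1 huw.2
    · rw [hlkt u h ht, hrkf w h' ht', heq] at huw; exact absurd huw.1 (by norm_num)
    · rw [h', hrv, hlkf u h ht, heq] at huw; exact absurd huw.1 (by norm_num)
    · rw [hlkf u h ht, hrn w h', heq] at huw
      have := (f2 w u h' h).2.1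
      rw [ht] at this
      exact absurd (neg_injective huw.2).symm this
    · rw [hlkf u h ht, hrkt w h' ht', heq] at huw; exact absurd huw.1 (by norm_num)
    · rw [hlkf u h ht, hrkf w h' ht', heq] at huw
      exact (f4 w h' u h (by rw [ht, ht'])).2.2.1 (neg_injective huw.2).symm
  · -- adj
    -- one-sided description of the overlap
    have key : ∀ u w : V, (G.Adj u w ↔ Ovl l r u w) → (G.Adj w u ↔ Ovl l r w u) := by
      intro u w h
      rw [G.adj_comm, h]
      unfold Ovl
      exact or_comm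
    have cvv : G.Adj v v ↔ Ovl l r v v := by
      constructor
      · intro h
        exact absurd h (G.loopless.irrefl v)
      · rintro (⟨h, -⟩ | ⟨h, -⟩) <;> exact absurd h (lt_irrefl _)
    have cvn : ∀ n, G.Adj v n → (G.Adj v n ↔ Ovl l r v n) := by
      intro n h
      refine iff_of_true h ?_
      left
      rw [hlv, hrv, hln n h, hrn n h, hlt, hlt, hlt]
      norm_num
    have cvk : ∀ k, k ∈ Far G v → (G.Adj v k ↔ Ovl l r v k) := by
      intro k h
      refine iff_of_false h.2 ?_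
      rcases Bool.eq_false_or_eq_true (τ k) with ht | ht
      · unfold Ovl
        rw [hlv, hrv, hlkt k h ht, hrkt k h ht]
        simp only [hlt]
        norm_num
      · unfold Ovl
        rw [hlv, hrv, hlkf k h ht, hrkf k h ht]
        simp only [hlt]
        norm_num
    have cnn : ∀ n n', G.Adj v n → G.Adj v n' → (G.Adj n n' ↔ Ovl l r n n') := by
      intro n n' h h'
      refine iff_of_false (h1 n n' h h') ?_
      unfold Ovl
      rw [hln n h, hrn n h, hln n' h', hrn n' h']
      simp only [hlt]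
      by_cases hnn : n = n'
      · rw [hnn]
        norm_num
      · rcases (f1 n n' true h h' hnn).1 with ⟨g1, g2⟩ | ⟨g1, g2⟩
        · rintro (⟨-, -, g3⟩ | ⟨g3, -, -⟩)
          · rcases g3 with g3 | ⟨-, g3⟩
            · exact absurd g3 (by norm_num)
            · linarith
          · rcases g3 with g3 | ⟨-, g3⟩
            · exact absurd g3 (by norm_num)
            · linarith
        · rintro (⟨g3, -, -⟩ | ⟨-, -, g3⟩)
          · rcases g3 with g3 | ⟨-, g3⟩
            · exact absurd g3 (by norm_num)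
            · linarith
          · rcases g3 with g3 | ⟨-, g3⟩
            · exact absurd g3 (by norm_num)
            · linarith
    have cnk : ∀ n k, G.Adj v n → k ∈ Far G v → (G.Adj n k ↔ Ovl l r n k) := by
      intro n k h h'
      rcases Bool.eq_false_or_eq_true (τ k) with ht | ht
      · have g := (f2 n k h h').2.2
        rw [ht] at g
        rw [g]
        unfold Ovl
        rw [hln n h, hrn n h, hlkt k h' ht, hrkt k h' ht]
        simp only [hlt]
        norm_num
      · have g := (f2 n k h h').2.2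
        rw [ht] at g
        rw [g]
        unfold Ovl
        rw [hln n h, hrn n h, hlkf k h' ht, hrkf k h' ht]
        simp only [hlt]
        norm_num
        exact and_comm
    have ckk : ∀ k k', k ∈ Far G v → k' ∈ Far G v → (G.Adj k k' ↔ Ovl l r k k') := by
      intro k k' h h'
      rcases Bool.eq_false_or_eq_true (τ k) with ht | ht <;> rcases Bool.eq_false_or_eq_true (τ k') with ht' | ht'
      · rw [(f4 k h k' h' (by rw [ht, ht'])).2.2.2]
        unfold Ovl
        rw [hlkt k h ht, hrkt k h ht, hlkt k' h' ht', hrkt k' h' ht']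
        simp only [hlt]
        norm_num
      · refine iff_of_false (f5 k h k' h' (by rw [ht, ht']; simp)) ?_
        unfold Ovl
        rw [hlkt k h ht, hrkt k h ht, hlkf k' h' ht', hrkf k' h' ht']
        simp only [hlt]
        norm_num
      · refine iff_of_false (f5 k h k' h' (by rw [ht, ht']; simp)) ?_
        unfold Ovl
        rw [hlkf k h ht, hrkf k h ht, hlkt k' h' ht', hrkt k' h' ht']
        simp only [hlt]
        norm_num
      · rw [(f4 k h k' h' (by rw [ht, ht'])).2.2.2]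
        unfold Ovl
        rw [hlkf k h ht, hrkf k h ht, hlkf k' h' ht', hrkf k' h' ht']
        simp only [hlt]
        norm_num
        constructor
        · rintro (⟨g1, g2, g3⟩ | ⟨g1, g2, g3⟩)
          · right
            exact ⟨g3, g2, g1⟩
          · left
            exact ⟨g3, g2, g1⟩
        · rintro (⟨g1, g2, g3⟩ | ⟨g1, g2, g3⟩)
          · right
            exact ⟨g3, g2, g1⟩
          · left
            exact ⟨g3, g2, g1⟩
    intro u w
    by_cases hu : u = v
    · rw [hu]
      by_cases hw : w = v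
      · rw [hw]
        exact cvv
      · by_cases hw' : G.Adj v w
        · exact cvn w hw'
        · exact cvk w ⟨hw, hw'⟩
    · by_cases hu' : G.Adj v u
      · by_cases hw : w = v
        · rw [hw]
          exact key v u (cvn u hu')
        · by_cases hw' : G.Adj v w
          · exact cnn u w hu' hw'
          · exact cnk u w hu' ⟨hw, hw'⟩
      · by_cases hw : w = v
        · rw [hw]
          exact key v u (cvk u ⟨hu, hu'⟩)
        · by_cases hw' : G.Adj v w
          · exact key w u (cnk w u hw' ⟨hu, hu'⟩)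
          · exact ckk u w ⟨hu, hu'⟩ ⟨hw, hw'⟩

/-- the integer part of the key -/
theorem gl_c (V : Type) [Finite V] (N : Set V) (pos : V → ℤ) (q : V → ℝ) (s0 : ℤ) :
    ∃ c : ℝ → ℤ, ∀ y, (c y = s0 ∨ ∃ n ∈ N, q n ≤ y ∧ c y = 2 * pos n) ∧ s0 ≤ c y ∧ ∀ n ∈ N, q n ≤ y → 2 * pos n ≤ c y := by
  have key : ∀ y : ℝ, ∃ c : ℤ, (c = s0 ∨ ∃ n ∈ N, q n ≤ y ∧ c = 2 * pos n) ∧ s0 ≤ c ∧
      ∀ n ∈ N, q n ≤ y → 2 * pos n ≤ c := by
    intro y
    obtain ⟨T, hT⟩ : ∃ T : Set ℤ, T = {s0} ∪ (fun n => 2 * pos n) '' {n | n ∈ N ∧ q n ≤ y} := ⟨_, rfl⟩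
    have hfin : T.Finite := by
      rw [hT]
      exact (Set.finite_singleton _).union ((Set.toFinite _).image _)
    have hne : T.Nonempty := by
      rw [hT]
      exact ⟨s0, Or.inl rfl⟩
    obtain ⟨c, hc, hmax⟩ := Set.exists_max_image T id hfin hne
    refine ⟨c, ?_, ?_, ?_⟩
    · rw [hT] at hc
      rcases hc with hc | ⟨n, ⟨hn, hq⟩, hc⟩
      · exact Or.inl hc
      · exact Or.inr ⟨n, hn, hq, hc.symm⟩
    · apply hmax
      rw [hT]
      exact Or.inl rfl
    · intro n hn hq
      apply hmax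
      rw [hT]
      exact Or.inr ⟨n, ⟨hn, hq⟩, rfl⟩
  choose c hc using key
  exact ⟨c, hc⟩

/-- the key -/
theorem gl_F (V : Type) [Finite V] (N : Set V) (pos : V → ℤ) (q : V → ℝ) (s e : ℤ) (hse : s ≤ e)
    (hN : ∀ n ∈ N, s ≤ pos n ∧ pos n ≤ e) (hq : ∀ a ∈ N, ∀ b ∈ N, (q a < q b ↔ pos a < pos b)) :
    ∃ F : ℝ → ℝ, StrictMono F ∧ (∀ y, 2 * (s : ℝ) - 1 < F y ∧ F y < 2 * e + 1) ∧
      ∀ n ∈ N, 2 * (pos n : ℝ) < F (q n) ∧ F (q n) < 2 * pos n + 1 := by
  obtain ⟨c, hc⟩ := gl_c V N pos q (2 * s - 1)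
  obtain ⟨θ, hθ⟩ : ∃ θ : ℝ → ℝ, ∀ y, θ y = Real.arctan y / Real.pi + 1 / 2 := ⟨_, fun _ => rfl⟩
  have hpi := Real.pi_pos
  have hθ0 : ∀ y, 0 < θ y := by
    intro y
    rw [hθ]
    have h1 := Real.neg_pi_div_two_lt_arctan y
    have h2 : -(1 / 2) < Real.arctan y / Real.pi := by
      rw [lt_div_iff₀ hpi]
      linarith
    linarith
  have hθ1 : ∀ y, θ y < 1 := by
    intro y
    rw [hθ]
    have h1 := Real.arctan_lt_pi_div_two y
    have h2 : Real.arctan y / Real.pi < 1 / 2 := by
      rw [div_lt_iff₀ hpi]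
      linarith
    linarith
  have hθm : StrictMono θ := by
    intro x y hxy
    rw [hθ, hθ]
    have h1 := Real.arctan_strictMono hxy
    have h2 := div_lt_div_of_pos_right h1 hpi
    linarith
  refine ⟨fun y => (c y : ℝ) + θ y, ?_, ?_, ?_⟩
  · intro x y hxy
    have h1 : c x ≤ c y := by
      rcases (hc x).1 with h | ⟨n, hn, hqn, h⟩
      · rw [h]
        exact (hc y).2.1
      · rw [h]
        exact (hc y).2.2 n hn (hqn.trans hxy.le)
    have h2 : (c x : ℝ) ≤ c y := by exact_mod_cast h1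
    have h3 := hθm hxy
    show (c x : ℝ) + θ x < (c y : ℝ) + θ y
    linarith
  · intro y
    have h1 : 2 * s - 1 ≤ c y := (hc y).2.1
    have h2 : c y ≤ 2 * e := by
      rcases (hc y).1 with h | ⟨n, hn, hqn, h⟩
      · rw [h]
        linarith
      · rw [h]
        have := (hN n hn).2
        linarith
    have h3 : (2 * s - 1 : ℝ) ≤ c y := by exact_mod_cast h1
    have h4 : (c y : ℝ) ≤ 2 * e := by exact_mod_cast h2
    have h5 := hθ0 y
    have h6 := hθ1 y
    constructor
    · show 2 * (s : ℝ) - 1 < (c y : ℝ) + θ y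
      linarith
    · show (c y : ℝ) + θ y < 2 * e + 1
      linarith
  · intro n hn
    have h1 : c (q n) = 2 * pos n := by
      apply le_antisymm _ ((hc (q n)).2.2 n hn le_rfl)
      rcases (hc (q n)).1 with h | ⟨n', hn', hqn, h⟩
      · rw [h]
        have := (hN n hn).1
        linarith
      · rw [h]
        have h2 : ¬ (pos n < pos n') := by
          intro h3
          exact absurd ((hq n hn n' hn').mpr h3) (not_lt.mpr hqn)
        linarith [not_lt.mp h2]
    have h2 : (c (q n) : ℝ) = 2 * pos n := by rw [h1]; push_cast; ring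
    have h5 := hθ0 (q n)
    have h6 := hθ1 (q n)
    constructor
    · show 2 * (pos n : ℝ) < (c (q n) : ℝ) + θ (q n)
      linarith
    · show (c (q n) : ℝ) + θ (q n) < 2 * pos n + 1
      linarith

theorem st_GL (hX : ST_XFER) : ST_GL := by
  classical
  intro V _ G v ι κ pos s e σ q L R H1 H2 H3 H4 H5 H6 H7 H8
  have hF : ∀ i, ∃ F : ℝ → ℝ, StrictMono F ∧ (∀ y, 2 * (s i : ℝ) - 1 < F y ∧ F y < 2 * e i + 1) ∧
      ∀ n ∈ {n | G.Adj v n ∧ s i ≤ pos n ∧ pos n ≤ e i}, 2 * (pos n : ℝ) < F (q i n) ∧ F (q i n) < 2 * pos n + 1 := by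
    intro i
    apply gl_F V {n | G.Adj v n ∧ s i ≤ pos n ∧ pos n ≤ e i} pos (q i) (s i) (e i) (H5 i)
    · intro n hn
      exact hn.2
    · intro a ha b hb
      exact H8 i a b ha.1 hb.1 ha.2.1 ha.2.2 hb.2.1 hb.2.2
  choose F hFm hFr hFn using hF
  obtain ⟨A, hA⟩ : ∃ A : V → Bool → ℝ, ∀ n b, A n b = if h : ∃ i, σ i = b ∧ s i ≤ pos n ∧ pos n ≤ e i then
    F (Classical.choose h) (q (Classical.choose h) n) else 2 * pos n + 1 / 2 := ⟨_, fun _ _ => rfl⟩
  have hA1 : ∀ n b, G.Adj v n → 2 * (pos n : ℝ) < A n b ∧ A n b < 2 * pos n + 1 := by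
    intro n b hn
    rw [hA]
    split_ifs with h
    · have hh := Classical.choose_spec h
      exact hFn _ n ⟨hn, hh.2.1, hh.2.2⟩
    · constructor <;> linarith
  have hA2 : ∀ n i, G.Adj v n → s i ≤ pos n → pos n ≤ e i → A n (σ i) = F i (q i n) := by
    intro n i hn h1 h2
    have h : ∃ j, σ j = σ i ∧ s j ≤ pos n ∧ pos n ≤ e j := ⟨i, rfl, h1, h2⟩
    rw [hA, dif_pos h]
    have hh := Classical.choose_spec h
    have hji : Classical.choose h = i := by
      by_contra hcon
      rcases H6 _ _ hcon hh.1 with h3 | h3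
      · linarith [hh.2.1, hh.2.2]
      · linarith [hh.2.1, hh.2.2]
    rw [hji]
  have hApos : ∀ n n' b, G.Adj v n → G.Adj v n' → pos n < pos n' → A n b < A n' b := by
    intro n n' b h h' hlt
    have h1 := (hA1 n b h).2
    have h2 := (hA1 n' b h').1
    have h3 : (pos n : ℝ) + 1 ≤ pos n' := by exact_mod_cast hlt
    linarith
  have hfar : ∀ k ∈ Far G v, k ∈ {k' | k' ∈ Far G v ∧ κ k' = κ k} := fun k hk => ⟨hk, rfl⟩
  apply gl_build hX V G v (fun k => σ (κ k)) A (fun k => F (κ k) (L (κ k) k)) (fun k => F (κ k) (R (κ k) k)) H1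
  · -- f1
    intro n n' b h h' hnn
    rcases lt_trichotomy (pos n) (pos n') with hp | hp | hp
    · refine ⟨Or.inl ⟨hApos n n' true h h' hp, hApos n n' false h h' hp⟩, (hApos n n' b h h' hp).ne⟩
    · exact absurd (H2 n n' h h' hp) hnn
    · refine ⟨Or.inr ⟨hApos n' n true h' h hp, hApos n' n false h' h hp⟩, (hApos n' n b h' h hp).ne'⟩
  · -- f2
    intro n k h hk
    obtain ⟨i, hi⟩ : ∃ i, i = κ k := ⟨_, rfl⟩
    have hki : k ∈ {k' | k' ∈ Far G v ∧ κ k' = i} := ⟨hk, hi.symm⟩
    show A n (σ (κ k)) ≠ F (κ k) (L (κ k) k) ∧ A n (σ (κ k)) ≠ F (κ k) (R (κ k) k) ∧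
      (G.Adj n k ↔ F (κ k) (L (κ k) k) < A n (σ (κ k)) ∧ A n (σ (κ k)) < F (κ k) (R (κ k) k))
    have H4' := H4 n h k hk
    rw [← hi] at H4' ⊢
    by_cases hb : s i ≤ pos n ∧ pos n ≤ e i
    · have hn : n ∈ {n | G.Adj v n ∧ s i ≤ pos n ∧ pos n ≤ e i} := ⟨h, hb.1, hb.2⟩
      rw [hA2 n i h hb.1 hb.2]
      refine ⟨?_, ?_, ?_⟩
      · intro hcon
        exact (H7 i).neL n hn k hki ((hFm i).injective hcon)
      · intro hcon
        exact (H7 i).neR n hn k hki ((hFm i).injective hcon)
      · rw [(H7 i).adjN n hn k hki, (hFm i).lt_iff_lt, (hFm i).lt_iff_lt]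
    · have hL := hFr i (L i k)
      have hR := hFr i (R i k)
      have hAn := hA1 n (σ i) h
      have hcase : A n (σ i) < 2 * (s i : ℝ) - 1 ∨ 2 * (e i : ℝ) + 1 < A n (σ i) := by
        rcases not_and_or.mp hb with hb | hb
        · left
          have h1 : pos n + 1 ≤ s i := by
            have := not_le.mp hb
            linarith
          have h2 : (pos n : ℝ) + 1 ≤ s i := by exact_mod_cast h1
          linarith
        · right
          have h1 : e i + 1 ≤ pos n := by
            have := not_le.mp hb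
            linarith
          have h2 : (e i : ℝ) + 1 ≤ pos n := by exact_mod_cast h1
          linarith
      refine ⟨?_, ?_, ?_⟩
      · intro hcon
        rcases hcase with hc | hc <;> linarith
      · intro hcon
        rcases hcase with hc | hc <;> linarith
      · constructor
        · intro hadj
          exact absurd (H4' hadj) hb
        · rintro ⟨g1, g2⟩
          rcases hcase with hc | hc <;> linarith
  · -- f3
    intro k hk
    exact hFm (κ k) ((H7 (κ k)).lt k (hfar k hk))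
  · -- f4
    intro k hk k' hk' hσ
    have hσ' : σ (κ k) = σ (κ k') := hσ
    show (F (κ k) (L (κ k) k) = F (κ k') (L (κ k') k') → k = k') ∧ (F (κ k) (R (κ k) k) = F (κ k') (R (κ k') k') → k = k') ∧
      F (κ k) (L (κ k) k) ≠ F (κ k') (R (κ k') k') ∧
      (G.Adj k k' ↔ ((F (κ k) (L (κ k) k) < F (κ k') (L (κ k') k') ∧ F (κ k') (L (κ k') k') < F (κ k) (R (κ k) k) ∧
        F (κ k) (R (κ k) k) < F (κ k') (R (κ k') k')) ∨ (F (κ k') (L (κ k') k') < F (κ k) (L (κ k) k) ∧
        F (κ k) (L (κ k) k) < F (κ k') (R (κ k') k') ∧ F (κ k') (R (κ k') k') < F (κ k) (R (κ k) k))))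
    by_cases hkk : κ k = κ k'
    · rw [hkk]
      have h1 : k ∈ {k'' | k'' ∈ Far G v ∧ κ k'' = κ k'} := ⟨hk, hkk⟩
      have h2 := hfar k' hk'
      have HR := H7 (κ k')
      have hm := hFm (κ k')
      refine ⟨fun hcon => HR.injL k h1 k' h2 (hm.injective hcon), fun hcon => HR.injR k h1 k' h2 (hm.injective hcon),
        fun hcon => HR.neLR k h1 k' h2 (hm.injective hcon), ?_⟩
      rw [HR.adjK k h1 k' h2]
      unfold Ovl
      simp only [hm.lt_iff_lt]
    · have a1 := hFr (κ k) (L (κ k) k)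
      have a2 := hFr (κ k) (R (κ k) k)
      have a3 := hFr (κ k') (L (κ k') k')
      have a4 := hFr (κ k') (R (κ k') k')
      have hnadj : ¬ G.Adj k k' := fun h => hkk (H3 k hk k' hk' h)
      rcases H6 _ _ hkk hσ' with hc | hc
      · have h1 : (e (κ k) : ℝ) + 1 ≤ s (κ k') := by exact_mod_cast hc
        refine ⟨fun hcon => ?_, fun hcon => ?_, fun hcon => ?_, iff_of_false hnadj ?_⟩
        · exfalso; linarith
        · exfalso; linarith
        · linarith
        · rintro (⟨g1, g2, g3⟩ | ⟨g1, g2, g3⟩) <;> linarith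
      · have h1 : (e (κ k') : ℝ) + 1 ≤ s (κ k) := by exact_mod_cast hc
        refine ⟨fun hcon => ?_, fun hcon => ?_, fun hcon => ?_, iff_of_false hnadj ?_⟩
        · exfalso; linarith
        · exfalso; linarith
        · linarith
        · rintro (⟨g1, g2, g3⟩ | ⟨g1, g2, g3⟩) <;> linarith
  · -- f5
    intro k hk k' hk' hσ hadj
    have h3 := H3 k hk k' hk' hadj
    apply hσ
    show σ (κ k) = σ (κ k')
    rw [h3]

end Pool.Agent.Helper64.HG
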