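import Mathlib
import Pool.Agent.Helper64.HG.Stmts

set_option autoImplicit false

namespace Pool.Agent.Helper64.HG

theorem th1_negrep {V : Type} (G : SimpleGraph V) (K N : Set V) (q L R : V → ℝ) (h : Rep G K N q L R) :
    Rep G K N (fun x => -(q x)) (fun x => -(R x)) (fun x => -(L x)) := by
  constructor
  · intro k hk
    exact neg_lt_neg (h.lt k hk)
  · intro n hn n' hn' he
    exact h.injq n hn n' hn' (neg_injective he)
  · intro k hk k' hk' he
    exact h.injR k hk k' hk' (neg_injective he)
  · intro k hk k' hk' he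
    exact h.injL k hk k' hk' (neg_injective he)
  · intro k hk k' hk' he
    exact h.neLR k' hk' k hk (neg_injective he).symm
  · intro n hn k hk he
    exact h.neR n hn k hk (neg_injective he)
  · intro n hn k hk he
    exact h.neL n hn k hk (neg_injective he)
  · intro k hk k' hk'
    rw [h.adjK k hk k' hk']
    unfold Ovl
    simp only [neg_lt_neg_iff]
    constructor
    · rintro (⟨g1, g2, g3⟩ | ⟨g1, g2, g3⟩)
      · right
        exact ⟨g3, g2, g1⟩
      · left
        exact ⟨g3, g2, g1⟩
    · rintro (⟨g1, g2, g3⟩ | ⟨g1, g2, g3⟩)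
      · right
        exact ⟨g3, g2, g1⟩
      · left
        exact ⟨g3, g2, g1⟩
  · intro n hn k hk
    rw [h.adjN n hn k hk]
    simp only [neg_lt_neg_iff]
    exact and_comm

theorem st_TH1 (hGL : ST_GL) (hPREP : ST_PREP) (hSPL : ST_SPL) : ST_TH1 := by
  classical
  intro V _ G u w A B hG huw hA hB hAB hall
  obtain ⟨a, A', rfl⟩ : ∃ a A', A = a :: A' := List.exists_cons_of_ne_nil hA.1
  obtain ⟨b, B', rfl⟩ : ∃ b B', B = b :: B' := List.exists_cons_of_ne_nil hB.1
  obtain ⟨a1, -, a3, a4, -, a6, -, a8, a9⟩ := hSPL V G u a w [] A' hA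
  obtain ⟨b1, -, b3, b4, -, b6, -, b8, b9⟩ := hSPL V G u b w [] B' hB
  have hua : G.Adj u a := a1 rfl
  have hub : G.Adj u b := b1 rfl
  have hA' : A' ≠ [] := by
    intro h
    exact hG.1 u a w hua (a3 h) huw
  have hB' : B' ≠ [] := by
    intro h
    exact hG.1 u b w hub (b3 h) huw
  obtain ⟨lA, naw⟩ := a4 hA'
  obtain ⟨lB, nbw⟩ := b4 hB'
  have hab : a ≠ b := (hAB a (by simp) b (by simp)).1
  have haw : a ≠ w := a9.symm
  have hbw : b ≠ w := b9.symm
  have hdis : ∀ x ∈ A', ∀ y ∈ B', x ≠ y ∧ ¬ G.Adj x y := fun x hx y hy =>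
    hAB x (List.mem_cons_of_mem _ hx) y (List.mem_cons_of_mem _ hy)
  have hN : ∀ x, G.Adj u x ↔ (x = a ∨ x = w ∨ x = b) := by
    intro x
    constructor
    · intro hx
      rcases hall x with h | h | h | h
      · rw [h] at hx
        exact absurd hx (G.loopless.irrefl u)
      · exact Or.inr (Or.inl h)
      · rcases List.mem_cons.mp h with h | h
        · exact Or.inl h
        · exact absurd hx (a6 u (by simp) x h).2
      · rcases List.mem_cons.mp h with h | h
        · exact Or.inr (Or.inr h)
        · exact absurd hx (b6 u (by simp) x h).2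
    · rintro (h | h | h)
      · rw [h]; exact hua
      · rw [h]; exact huw
      · rw [h]; exact hub
  have hFar : ∀ x, x ∈ Far G u ↔ (x ∈ A' ∨ x ∈ B') := by
    intro x
    constructor
    · intro hx
      have hx2 : ¬ (x = a ∨ x = w ∨ x = b) := by
        rw [← hN]
        exact hx.2
      rcases hall x with h | h | h | h
      · exact absurd h hx.1
      · exact absurd (Or.inr (Or.inl h)) hx2
      · rcases List.mem_cons.mp h with h | h
        · exact absurd (Or.inl h) hx2
        · exact Or.inl h
      · rcases List.mem_cons.mp h with h | h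
        · exact absurd (Or.inr (Or.inr h)) hx2
        · exact Or.inr h
    · rintro (h | h)
      · exact ⟨(a6 u (by simp) x h).1.symm, (a6 u (by simp) x h).2⟩
      · exact ⟨(b6 u (by simp) x h).1.symm, (b6 u (by simp) x h).2⟩
  obtain ⟨pos, hpos⟩ : ∃ pos : V → ℤ, ∀ x, pos x = if x = a then -1 else if x = w then 0 else 1 := ⟨_, fun _ => rfl⟩
  have pa : pos a = -1 := by rw [hpos, if_pos rfl]
  have pww : pos w = 0 := by rw [hpos, if_neg haw.symm, if_pos rfl]
  have pb : pos b = 1 := by rw [hpos, if_neg hab.symm, if_neg hbw]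
  obtain ⟨κ, hκ⟩ : ∃ κ : V → Bool, ∀ x, κ x = decide (x ∈ A') := ⟨_, fun _ => rfl⟩
  have hκt : ∀ x, κ x = true ↔ x ∈ A' := by
    intro x
    rw [hκ]
    exact decide_eq_true_iff
  have hκf : ∀ x, κ x = false ↔ x ∉ A' := by
    intro x
    rw [hκ]
    exact decide_eq_false_iff_not
  obtain ⟨q1, L1, R1, hr1, hq1⟩ := hPREP V G a w A' lA naw haw
  obtain ⟨q2', L2', R2', hr2', hq2'⟩ := hPREP V G b w B' lB nbw hbw
  have hr2 := th1_negrep G _ _ _ _ _ hr2'
  obtain ⟨q2, hq2d⟩ : ∃ q2 : V → ℝ, q2 = fun x => -(q2' x) := ⟨_, rfl⟩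
  obtain ⟨L2, hL2d⟩ : ∃ q2 : V → ℝ, q2 = fun x => -(R2' x) := ⟨_, rfl⟩
  obtain ⟨R2, hR2d⟩ : ∃ q2 : V → ℝ, q2 = fun x => -(L2' x) := ⟨_, rfl⟩
  rw [← hq2d, ← hL2d, ← hR2d] at hr2
  have hq2 : q2 w < q2 b := by
    rw [hq2d]
    exact neg_lt_neg hq2'
  apply hGL V G u Bool κ pos (fun i => if i = true then -1 else 0) (fun i => if i = true then 0 else 1) id
    (fun i => if i = true then q1 else q2) (fun i => if i = true then L1 else L2) (fun i => if i = true then R1 else R2)
  · intro x y hx hy
    exact hG.1 x u y hx.symm hy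
  · intro x y hx hy hxy
    rcases (hN x).mp hx with h | h | h <;> rcases (hN y).mp hy with h' | h' | h' <;> rw [h, h'] at hxy <;> rw [h, h'] <;>
      simp only [pa, pww, pb] at hxy <;> norm_num at hxy
  · intro x hx y hy hxy
    rcases (hFar x).mp hx with h | h <;> rcases (hFar y).mp hy with h' | h'
    · rw [(hκt x).mpr h, (hκt y).mpr h']
    · exact absurd hxy (hdis x h y h').2
    · exact absurd hxy.symm (hdis y h' x h).2
    · rw [(hκf x).mpr (fun hx => (hdis x hx x h).1 rfl), (hκf y).mpr (fun hy => (hdis y hy y h').1 rfl)]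
  · intro n hn k hk hnk
    rcases (hFar k).mp hk with h | h
    · rw [(hκt k).mpr h]
      rcases (hN n).mp hn with h' | h' | h'
      · rw [h', pa]
        norm_num
      · rw [h', pww]
        norm_num
      · exfalso
        rw [h'] at hnk
        exact (hAB k (List.mem_cons_of_mem _ h) b (by simp)).2 hnk.symm
    · rw [(hκf k).mpr (fun hx => (hdis k hx k h).1 rfl)]
      rcases (hN n).mp hn with h' | h' | h'
      · exfalso
        rw [h'] at hnk
        exact (hAB a (by simp) k (List.mem_cons_of_mem _ h)).2 hnk
      · rw [h', pww]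
        norm_num
      · rw [h', pb]
        norm_num
  · intro i
    cases i <;> norm_num
  · intro i j hij hσ
    exact absurd hσ hij
  · intro i
    cases i
    · have e1 : {k | k ∈ Far G u ∧ κ k = false} = {x | x ∈ B'} := by
        ext x
        simp only [Set.mem_setOf_eq]
        rw [hFar, hκf]
        constructor
        · rintro ⟨h | h, h'⟩
          · exact absurd h h'
          · exact h
        · intro h
          exact ⟨Or.inr h, fun hx => (hdis x hx x h).1 rfl⟩
      have e2 : {n | G.Adj u n ∧ (if (false = true) then (-1 : ℤ) else 0) ≤ pos n ∧ pos n ≤ (if (false = true) then (0 : ℤ) else 1)} =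
          {b, w} := by
        ext x
        simp only [Set.mem_setOf_eq, Set.mem_insert_iff, Set.mem_singleton_iff, Bool.false_eq_true, if_false]
        rw [hN]
        constructor
        · rintro ⟨h | h | h, h1, h2⟩
          · rw [h, pa] at h1
            norm_num at h1
          · exact Or.inr h
          · exact Or.inl h
        · rintro (h | h)
          · rw [h, pb]
            norm_num
          · rw [h, pww]
            norm_num
      rw [e1, e2]
      exact hr2
    · have e1 : {k | k ∈ Far G u ∧ κ k = true} = {x | x ∈ A'} := by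
        ext x
        simp only [Set.mem_setOf_eq]
        rw [hFar, hκt]
        constructor
        · rintro ⟨-, h'⟩
          exact h'
        · intro h
          exact ⟨Or.inl h, h⟩
      have e2 : {n | G.Adj u n ∧ (if (true = true) then (-1 : ℤ) else 0) ≤ pos n ∧ pos n ≤ (if (true = true) then (0 : ℤ) else 1)} =
          {a, w} := by
        ext x
        simp only [Set.mem_setOf_eq, Set.mem_insert_iff, Set.mem_singleton_iff, if_true]
        rw [hN]
        constructor
        · rintro ⟨h | h | h, h1, h2⟩
          · exact Or.inl h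
          · exact Or.inr h
          · rw [h, pb] at h2
            norm_num at h2
        · rintro (h | h)
          · rw [h, pa]
            norm_num
          · rw [h, pww]
            norm_num
      rw [e1, e2]
      exact hr1
  · intro i x y hx hy h1 h2 h3 h4
    cases i
    · simp only [Bool.false_eq_true, if_false] at h1 h2 h3 h4 ⊢
      rcases (hN x).mp hx with h | h | h <;> rcases (hN y).mp hy with h' | h' | h' <;>
        simp only [h, h', pa, pww, pb] at h1 h2 h3 h4 ⊢
      · norm_num at h1
      · norm_num at h1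
      · norm_num at h1
      · norm_num at h3
      · simp
      · simp [hq2]
      · norm_num at h3
      · simp [hq2.le]
      · simp
    · simp only [if_true] at h1 h2 h3 h4 ⊢
      rcases (hN x).mp hx with h | h | h <;> rcases (hN y).mp hy with h' | h' | h' <;>
        simp only [h, h', pa, pww, pb] at h1 h2 h3 h4 ⊢
      · simp
      · simp [hq1]
      · norm_num at h4
      · simp [hq1.le]
      · simp
      · norm_num at h4
      · norm_num at h2
      · norm_num at h2
      · norm_num at h2

end Pool.Agent.Helper64.HG
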