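import Mathlib
import Pool.Agent.Helper64.HG.Stmts

set_option autoImplicit false

namespace Pool.Agent.Helper64.HG

theorem st_TH2 (hGL : ST_GL) (hPREP : ST_PREP) : ST_TH2 := by
  classical
  intro V _ G u w y A B hG hyu hyw huw hA hB hAB hyA hyB hall
  have nuw : ¬ G.Adj u w := hG.1 u y w hyu.symm hyw
  have hN : ∀ x, G.Adj y x ↔ (x = u ∨ x = w) := by
    intro x
    constructor
    · intro hx
      rcases hall x with h | h | h | h | h
      · exact Or.inl h
      · exact Or.inr h
      · rw [h] at hx
        exact absurd hx (G.loopless.irrefl y)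
      · exact absurd hx (hyA y (by simp) x h).2
      · exact absurd hx (hyB y (by simp) x h).2
    · rintro (h | h)
      · rw [h]; exact hyu
      · rw [h]; exact hyw
  have hFar : ∀ x, x ∈ Far G y ↔ (x ∈ A ∨ x ∈ B) := by
    intro x
    constructor
    · intro hx
      have hx2 : ¬ (x = u ∨ x = w) := by
        rw [← hN]
        exact hx.2
      rcases hall x with h | h | h | h | h
      · exact absurd (Or.inl h) hx2
      · exact absurd (Or.inr h) hx2
      · exact absurd h hx.1
      · exact Or.inl h
      · exact Or.inr h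
    · rintro (h | h)
      · exact ⟨(hyA y (by simp) x h).1.symm, (hyA y (by simp) x h).2⟩
      · exact ⟨(hyB y (by simp) x h).1.symm, (hyB y (by simp) x h).2⟩
  obtain ⟨pos, hpos⟩ : ∃ pos : V → ℤ, ∀ x, pos x = if x = u then 0 else 1 := ⟨_, fun _ => rfl⟩
  have pu : pos u = 0 := by rw [hpos, if_pos rfl]
  have pww : pos w = 1 := by rw [hpos, if_neg huw.symm]
  obtain ⟨κ, hκ⟩ : ∃ κ : V → Bool, ∀ x, κ x = decide (x ∈ A) := ⟨_, fun _ => rfl⟩
  have hκt : ∀ x, κ x = true ↔ x ∈ A := by
    intro x
    rw [hκ]
    exact decide_eq_true_iff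
  have hκf : ∀ x, κ x = false ↔ x ∉ A := by
    intro x
    rw [hκ]
    exact decide_eq_false_iff_not
  obtain ⟨q1, L1, R1, hr1, hq1⟩ := hPREP V G u w A hA nuw huw
  obtain ⟨q2, L2, R2, hr2, hq2⟩ := hPREP V G u w B hB nuw huw
  apply hGL V G y Bool κ pos (fun _ => 0) (fun _ => 1) id
    (fun i => if i = true then q1 else q2) (fun i => if i = true then L1 else L2) (fun i => if i = true then R1 else R2)
  · intro x z hx hz
    exact hG.1 x y z hx.symm hz
  · intro x z hx hz hxz
    rcases (hN x).mp hx with h | h <;> rcases (hN z).mp hz with h' | h' <;> rw [h, h'] at hxz <;> rw [h, h'] <;>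
      simp only [pu, pww] at hxz <;> norm_num at hxz
  · intro x hx z hz hxz
    rcases (hFar x).mp hx with h | h <;> rcases (hFar z).mp hz with h' | h'
    · rw [(hκt x).mpr h, (hκt z).mpr h']
    · exact absurd hxz (hAB x h z h').2
    · exact absurd hxz.symm (hAB z h' x h).2
    · rw [(hκf x).mpr (fun hx => (hAB x hx x h).1 rfl), (hκf z).mpr (fun hy => (hAB z hy z h').1 rfl)]
  · intro n hn k hk hnk
    rcases (hN n).mp hn with h' | h'
    · rw [h', pu]
      norm_num
    · rw [h', pww]
      norm_num
  · intro i
    norm_num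
  · intro i j hij hσ
    exact absurd hσ hij
  · intro i
    have e2 : {n | G.Adj y n ∧ (0 : ℤ) ≤ pos n ∧ pos n ≤ (1 : ℤ)} = {u, w} := by
      ext x
      show (G.Adj y x ∧ (0 : ℤ) ≤ pos x ∧ pos x ≤ (1 : ℤ)) ↔ (x = u ∨ x = w)
      rw [hN]
      constructor
      · rintro ⟨h, -, -⟩
        exact h
      · rintro (h | h)
        · rw [h, pu]
          norm_num
        · rw [h, pww]
          norm_num
    cases i
    · have e1 : {k | k ∈ Far G y ∧ κ k = false} = {x | x ∈ B} := by
        ext x
        show (x ∈ Far G y ∧ κ x = false) ↔ x ∈ B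
        rw [hFar, hκf]
        constructor
        · rintro ⟨h | h, h'⟩
          · exact absurd h h'
          · exact h
        · intro h
          exact ⟨Or.inr h, fun hx => (hAB x hx x h).1 rfl⟩
      rw [e1, e2]
      exact hr2
    · have e1 : {k | k ∈ Far G y ∧ κ k = true} = {x | x ∈ A} := by
        ext x
        show (x ∈ Far G y ∧ κ x = true) ↔ x ∈ A
        rw [hFar, hκt]
        constructor
        · rintro ⟨-, h'⟩
          exact h'
        · intro h
          exact ⟨Or.inl h, h⟩
      rw [e1, e2]
      exact hr1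
  · intro i x z hx hz h1 h2 h3 h4
    cases i
    · simp only [Bool.false_eq_true, if_false]
      rcases (hN x).mp hx with h | h <;> rcases (hN z).mp hz with h' | h' <;>
        simp only [h, h', pu, pww]
      · simp
      · simp [hq2]
      · simp [hq2.le]
      · simp
    · simp only [if_true]
      rcases (hN x).mp hx with h | h <;> rcases (hN z).mp hz with h' | h' <;>
        simp only [h, h', pu, pww]
      · simp
      · simp [hq1]
      · simp [hq1.le]
      · simp

end Pool.Agent.Helper64.HG
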